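import Pool.Agent.H27.ZF.TA

/-!
Board zf (MP_52e316_nt), row EPR: a Dirichlet series without the first factors of its Euler product.
-/

set_option autoImplicit false

namespace Pool.Agent.H69.ZF

open Pool.Agent.H27.ZF

/-- the powers `n ^ (-s)` -/
noncomputable def ee (s : ℂ) (n : ℕ) : ℂ := (n : ℂ) ^ (-s)

theorem ee_mul (s : ℂ) (a b : ℕ) : ee s (a * b) = ee s a * ee s b := by
  unfold ee
  rw [Nat.cast_mul]
  exact Complex.natCast_mul_natCast_cpow a b (-s)

theorem ee_pow (s : ℂ) (p j : ℕ) : ee s (p ^ j) = ee s p ^ j := by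
  induction j with
  | zero =>
    unfold ee
    simp
  | succ j ih => rw [pow_succ, ee_mul, ih, pow_succ]

/-- the Dirichlet series over the integers without prime factors in `S` -/
noncomputable def gS (lam : ℕ → ℂ) (s : ℂ) (S : Finset ℕ) (n : ℕ) : ℂ :=
  if 1 ≤ n ∧ ∀ p ∈ S, ¬ p ∣ n then lam n * ee s n else 0

theorem gS_zero (lam : ℕ → ℂ) (s : ℂ) (S : Finset ℕ) : gS lam s S 0 = 0 := by
  unfold gS
  rw [if_neg]
  rintro ⟨h, _⟩
  omega

theorem gS_sum {lam : ℕ → ℂ} {s : ℂ}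
    (hs : Summable (fun n : ℕ => if 1 ≤ n then ‖lam n‖ * (n : ℝ) ^ (-s.re) else 0))
    (S : Finset ℕ) : Summable (gS lam s S) := by
  refine Summable.of_norm_bounded hs fun n => ?_
  unfold gS
  by_cases h1 : 1 ≤ n
  · rw [if_pos h1]
    by_cases h2 : 1 ≤ n ∧ ∀ p ∈ S, ¬ p ∣ n
    · rw [if_pos h2, norm_mul]
      refine le_of_eq ?_
      congr 1
      unfold ee
      rw [Complex.norm_natCast_cpow_of_pos (by omega)]
      rfl
    · rw [if_neg h2, norm_zero]
      positivity
  · rw [if_neg h1, if_neg (fun h => h1 h.1), norm_zero]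

/-- one term of the product of the series with the polynomial -/
noncomputable def Fj (lam : ℕ → ℂ) (s : ℂ) (S : Finset ℕ) (p : ℕ) (c : ℂ) (j N : ℕ) : ℂ :=
  if p ^ j ∣ N then c * ee s p ^ j * gS lam s S (N / p ^ j) else 0

theorem Fj_comp (lam : ℕ → ℂ) (s : ℂ) (S : Finset ℕ) {p : ℕ} (hp : 0 < p) (c : ℂ) (j n : ℕ) :
    Fj lam s S p c j (p ^ j * n) = c * ee s p ^ j * gS lam s S n := by
  unfold Fj
  rw [if_pos (Dvd.intro _ rfl), Nat.mul_div_cancel_left _ (pow_pos hp j)]

theorem Fj_off (lam : ℕ → ℂ) (s : ℂ) (S : Finset ℕ) (p : ℕ) (c : ℂ) (j N : ℕ)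
    (h : N ∉ Set.range (fun n => p ^ j * n)) : Fj lam s S p c j N = 0 := by
  unfold Fj
  rw [if_neg]
  rintro ⟨n, hn⟩
  exact h ⟨n, hn.symm⟩

theorem inj_mul {p : ℕ} (hp : 0 < p) (j : ℕ) : Function.Injective (fun n => p ^ j * n) :=
  fun _ _ h => Nat.eq_of_mul_eq_mul_left (pow_pos hp j) h

theorem Fj_summable {lam : ℕ → ℂ} {s : ℂ} {S : Finset ℕ} (hs : Summable (gS lam s S)) {p : ℕ}
    (hp : 0 < p) (c : ℂ) (j : ℕ) : Summable (Fj lam s S p c j) := by
  rw [← (inj_mul hp j).summable_iff (fun N hN => Fj_off lam s S p c j N hN)]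
  have h1 : (Fj lam s S p c j ∘ fun n => p ^ j * n) = fun n => c * ee s p ^ j * gS lam s S n :=
    funext fun n => Fj_comp lam s S hp c j n
  rw [h1]
  exact hs.mul_left _

theorem Fj_tsum {lam : ℕ → ℂ} {s : ℂ} {S : Finset ℕ} {p : ℕ}
    (hp : 0 < p) (c : ℂ) (j : ℕ) :
    ∑' N, Fj lam s S p c j N = c * ee s p ^ j * ∑' n, gS lam s S n := by
  rw [← tsum_mul_left]
  rw [← (inj_mul hp j).tsum_eq (f := Fj lam s S p c j) (fun N hN => by
    by_contra h
    exact hN (Fj_off lam s S p c j N h))]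
  exact tsum_congr fun n => Fj_comp lam s S hp c j n

/-- the convolution at one integer -/
theorem Fj_local {m : ℕ} {lam : ℕ → ℂ} {q : ℕ → ℕ → ℂ} (hE : Eul m lam q) (s : ℂ)
    {S : Finset ℕ} (hS : ∀ r ∈ S, r.Prime) {p : ℕ} (hp : p.Prime) (hpS : p ∉ S) (N : ℕ) :
    ∑ j ∈ Finset.range (m + 1), Fj lam s S p (q p j) j N = gS lam s (insert p S) N := by
  have hI := hE.loc p hp
  rcases Nat.eq_zero_or_pos N with hN | hN
  · subst hN
    rw [gS_zero]
    refine Finset.sum_eq_zero fun j _ => ?_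
    unfold Fj
    rw [if_pos (dvd_zero _), Nat.zero_div, gS_zero, mul_zero]
  obtain ⟨a, n, hn, hNe⟩ := Nat.exists_eq_pow_mul_and_not_dvd (by omega : N ≠ 0) p hp.ne_one
  have hp0 : 0 < p := hp.pos
  have hn0 : 0 < n := by
    rcases Nat.eq_zero_or_pos n with h | h
    · exact absurd (h ▸ dvd_zero p) hn
    · exact h
  have hcop : ∀ k, (p ^ k).Coprime n := fun k =>
    Nat.Coprime.pow_left k ((Nat.Prime.coprime_iff_not_dvd hp).2 hn)
  -- divisibility by the other primes
  have hdvd : ∀ k, (1 ≤ p ^ k * n ∧ ∀ r ∈ S, ¬ r ∣ p ^ k * n) ↔ ∀ r ∈ S, ¬ r ∣ n := by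
    intro k
    constructor
    · rintro ⟨_, h⟩ r hr h1
      exact h r hr (Dvd.dvd.mul_left h1 _)
    · intro h
      refine ⟨Nat.mul_pos (pow_pos hp0 k) hn0, fun r hr h1 => ?_⟩
      rcases ((hS r hr).dvd_mul).1 h1 with h2 | h2
      · have h3 := (Nat.prime_dvd_prime_iff_eq (hS r hr) hp).1 ((hS r hr).dvd_of_dvd_pow h2)
        exact hpS (h3 ▸ hr)
      · exact h r hr h2
  -- the terms
  have hterm : ∀ j, Fj lam s S p (q p j) j N = if j ≤ a then
      (if ∀ r ∈ S, ¬ r ∣ n then (lam n * ee s N) * (q p j * lam (p ^ (a - j))) else 0) else 0 := by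
    intro j
    by_cases hj : j ≤ a
    · rw [if_pos hj]
      have h1 : N = p ^ j * (p ^ (a - j) * n) := by
        rw [hNe, ← mul_assoc, ← pow_add]
        congr 2
        omega
      rw [h1, Fj_comp lam s S hp0, ← h1]
      unfold gS
      by_cases h2 : ∀ r ∈ S, ¬ r ∣ n
      · rw [if_pos h2, if_pos ((hdvd (a - j)).2 h2), hE.mul _ _ (hcop _)]
        have h3 : ee s N = ee s p ^ j * ee s (p ^ (a - j) * n) := by
          conv_lhs => rw [h1, ee_mul, ee_pow]
        rw [h3]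
        ring
      · rw [if_neg h2, if_neg (fun h => h2 ((hdvd (a - j)).1 h)), mul_zero]
    · rw [if_neg hj]
      unfold Fj
      rw [if_neg]
      intro h1
      rw [hNe] at h1
      have h2 : p ^ (a + 1) ∣ p ^ a * n := (pow_dvd_pow p (by omega)).trans h1
      rw [pow_succ] at h2
      exact hn (Nat.dvd_of_mul_dvd_mul_left (pow_pos hp0 a) h2)
  rw [Finset.sum_congr rfl fun j _ => hterm j]
  -- the sum of the terms
  have hsum : ∑ j ∈ Finset.range (m + 1), (if j ≤ a then q p j * lam (p ^ (a - j)) else 0) =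
      if a = 0 then 1 else 0 := by
    have h1 : ∑ j ∈ Finset.range (m + 1), (if j ≤ a then q p j * lam (p ^ (a - j)) else 0) =
        ∑ j ∈ Finset.range (m + 1 + (a + 1)),
          (if j ≤ a then q p j * lam (p ^ (a - j)) else 0) := by
      refine Finset.sum_subset (fun j hj => ?_) (fun j _ hj => ?_)
      · rw [Finset.mem_range] at hj ⊢
        omega
      · rw [Finset.mem_range] at hj
        rw [hI.deg j (by omega), zero_mul, ite_self]
    have h2 : ∑ j ∈ Finset.range (a + 1), q p j * lam (p ^ (a - j)) =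
        ∑ j ∈ Finset.range (m + 1 + (a + 1)),
          (if j ≤ a then q p j * lam (p ^ (a - j)) else 0) := by
      have h3 : ∑ j ∈ Finset.range (a + 1), q p j * lam (p ^ (a - j)) =
          ∑ j ∈ Finset.range (a + 1), (if j ≤ a then q p j * lam (p ^ (a - j)) else 0) := by
        refine Finset.sum_congr rfl fun j hj => ?_
        have := Finset.mem_range.1 hj
        rw [if_pos (by omega)]
      rw [h3]
      refine Finset.sum_subset (fun j hj => ?_) (fun j _ hj => ?_)
      · rw [Finset.mem_range] at hj ⊢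
        omega
      · rw [Finset.mem_range] at hj
        rw [if_neg (by omega)]
    rw [h1, ← h2]
    rcases Nat.eq_zero_or_pos a with ha | ha
    · subst ha
      rw [if_pos rfl, Finset.sum_range_one, hI.q0, one_mul, Nat.sub_zero]
      exact hI.h0
    · rw [if_neg (by omega)]
      exact hI.conv a ha
  by_cases h2 : ∀ r ∈ S, ¬ r ∣ n
  · have h3 : ∑ j ∈ Finset.range (m + 1), (if j ≤ a then
        (if ∀ r ∈ S, ¬ r ∣ n then (lam n * ee s N) * (q p j * lam (p ^ (a - j))) else 0)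
          else 0) = (lam n * ee s N) * (if a = 0 then 1 else 0) := by
      rw [← hsum, Finset.mul_sum]
      refine Finset.sum_congr rfl fun j _ => ?_
      rw [if_pos h2]
      by_cases hj : j ≤ a
      · rw [if_pos hj, if_pos hj]
      · rw [if_neg hj, if_neg hj, mul_zero]
    rw [h3]
    unfold gS
    by_cases ha : a = 0
    · rw [if_pos ha, mul_one, if_pos, hNe, ha, pow_zero, one_mul]
      refine ⟨hN, fun r hr => ?_⟩
      rw [hNe, ha, pow_zero, one_mul]
      rcases Finset.mem_insert.1 hr with h4 | h4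
      · rw [h4]
        exact hn
      · exact h2 r h4
    · rw [if_neg ha, mul_zero, if_neg]
      rintro ⟨_, h4⟩
      apply h4 p (Finset.mem_insert_self p S)
      rw [hNe]
      exact Dvd.dvd.mul_right (dvd_pow_self p ha) n
  · have h3 : ∑ j ∈ Finset.range (m + 1), (if j ≤ a then
        (if ∀ r ∈ S, ¬ r ∣ n then (lam n * ee s N) * (q p j * lam (p ^ (a - j))) else 0)
          else 0) = 0 := by
      refine Finset.sum_eq_zero fun j _ => ?_
      rw [if_neg h2, ite_self]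
    rw [h3]
    unfold gS
    rw [if_neg]
    rintro ⟨_, h4⟩
    apply h2
    intro r hr h5
    refine h4 r (Finset.mem_insert_of_mem hr) ?_
    rw [hNe]
    exact Dvd.dvd.mul_left h5 _

theorem gS_step {m : ℕ} {lam : ℕ → ℂ} {q : ℕ → ℕ → ℂ} (hE : Eul m lam q) {s : ℂ}
    (hs : Summable (fun n : ℕ => if 1 ≤ n then ‖lam n‖ * (n : ℝ) ^ (-s.re) else 0))
    {S : Finset ℕ} (hS : ∀ r ∈ S, r.Prime) {p : ℕ} (hp : p.Prime) (hpS : p ∉ S) :
    qv m (q p) (ee s p) * ∑' n, gS lam s S n = ∑' n, gS lam s (insert p S) n := by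
  have h1 : ∑' n, gS lam s (insert p S) n =
      ∑' n, ∑ j ∈ Finset.range (m + 1), Fj lam s S p (q p j) j n :=
    tsum_congr fun n => (Fj_local hE s hS hp hpS n).symm
  rw [h1, Summable.tsum_finsetSum fun j _ => Fj_summable (gS_sum hs S) hp.pos _ j]
  unfold qv
  rw [Finset.sum_mul]
  exact Finset.sum_congr rfl fun j _ => (Fj_tsum hp.pos _ j).symm

theorem gS_prod {m : ℕ} {lam : ℕ → ℂ} {q : ℕ → ℕ → ℂ} (hE : Eul m lam q) {s : ℂ}
    (hs : Summable (fun n : ℕ => if 1 ≤ n then ‖lam n‖ * (n : ℝ) ^ (-s.re) else 0))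
    (S : Finset ℕ) (hS : ∀ r ∈ S, r.Prime) :
    (∏ p ∈ S, qv m (q p) (ee s p)) * ∑' n, gS lam s ∅ n = ∑' n, gS lam s S n := by
  classical
  induction S using Finset.induction_on with
  | empty => rw [Finset.prod_empty, one_mul]
  | insert p S hp ih =>
    rw [Finset.prod_insert hp, mul_assoc,
      ih fun r hr => hS r (Finset.mem_insert_of_mem hr)]
    exact gS_step hE hs (fun r hr => hS r (Finset.mem_insert_of_mem hr))
      (hS p (Finset.mem_insert_self p S)) hp

theorem pf_EPR : T_EPR := by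
  intro m lam q s S hE hS hs
  have h1 := gS_prod hE hs S hS
  have h2 : ∀ n : ℕ, (if 1 ≤ n then lam n * (n : ℂ) ^ (-s) else 0) = gS lam s ∅ n := by
    intro n
    unfold gS ee
    by_cases h : 1 ≤ n
    · rw [if_pos h, if_pos ⟨h, fun p hp => absurd hp (Finset.notMem_empty p)⟩]
    · rw [if_neg h, if_neg fun h' => h h'.1]
  have h3 : ∀ n : ℕ, (if 1 ≤ n ∧ ∀ p ∈ S, ¬ p ∣ n then lam n * (n : ℂ) ^ (-s) else 0) =
      gS lam s S n := fun n => rfl
  rw [tsum_congr h2, tsum_congr h3]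
  exact h1

end Pool.Agent.H69.ZF
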