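import Pool.Agent.H27.ZF.TA

/-!
Board zf (MP_52e316_nt), row LQB: the inverse of a local factor against its linear and quadratic
terms.
-/

set_option autoImplicit false

namespace Pool.Agent.H69.ZF

open Pool.Agent.H27.ZF

theorem sum_Icc_one {E : Type*} [AddCommMonoid E] (f : ℕ → E) (m : ℕ) :
    ∑ k ∈ Finset.Icc 1 m, f k = ∑ j ∈ Finset.range m, f (j + 1) := by
  have h1 : Finset.Icc 1 m = Finset.Ico 1 (m + 1) := by
    ext k
    simp only [Finset.mem_Icc, Finset.mem_Ico]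
    omega
  rw [h1, Finset.sum_Ico_eq_sum_range, Nat.add_sub_cancel]
  exact Finset.sum_congr rfl fun j _ => by rw [add_comm]

theorem norm_one_sub_le (w : ℂ) : ‖1 - w‖ ≤ Real.exp (-w.re + ‖w‖ ^ 2 / 2) := by
  have h1 : ‖1 - w‖ ^ 2 ≤ Real.exp (-w.re + ‖w‖ ^ 2 / 2) ^ 2 := by
    have h2 : ‖1 - w‖ ^ 2 = 1 + (-(2 * w.re) + ‖w‖ ^ 2) := by
      rw [← Complex.normSq_eq_norm_sq, ← Complex.normSq_eq_norm_sq, Complex.normSq_apply,
        Complex.normSq_apply]
      simp only [Complex.sub_re, Complex.sub_im, Complex.one_re, Complex.one_im]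
      ring
    have h3 : Real.exp (-w.re + ‖w‖ ^ 2 / 2) ^ 2 = Real.exp (-(2 * w.re) + ‖w‖ ^ 2) := by
      rw [← Real.exp_nat_mul]
      congr 1
      push_cast
      ring
    rw [h2, h3]
    linarith [Real.add_one_le_exp (-(2 * w.re) + ‖w‖ ^ 2)]
  exact (le_abs_self _).trans (abs_le_of_sq_le_sq h1 (Real.exp_pos _).le)

theorem exp_add_le {a b c : ℝ} (hb : 0 ≤ b) (hc : -c ≤ a) :
    Real.exp a + b ≤ Real.exp (a + b * Real.exp c) := by
  have h1 : Real.exp (a + b * Real.exp (-a)) ≤ Real.exp (a + b * Real.exp c) := by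
    apply Real.exp_le_exp.2
    have h2 : Real.exp (-a) ≤ Real.exp c := Real.exp_le_exp.2 (by linarith)
    have := mul_le_mul_of_nonneg_left h2 hb
    linarith
  refine le_trans ?_ h1
  rw [Real.exp_add]
  have h3 := Real.add_one_le_exp (b * Real.exp (-a))
  have h4 : Real.exp a * (b * Real.exp (-a) + 1) ≤
      Real.exp a * Real.exp (b * Real.exp (-a)) :=
    mul_le_mul_of_nonneg_left h3 (Real.exp_pos _).le
  refine le_trans (le_of_eq ?_) h4
  have h5 : Real.exp a * Real.exp (-a) = 1 := by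
    rw [← Real.exp_add, add_neg_cancel, Real.exp_zero]
  linear_combination (-b) * h5

theorem pf_LQB : T_LQB := by
  intro m
  refine ⟨m + m * 2 ^ (m + 1) * m * Real.exp m + 1, by positivity, ?_⟩
  intro h q x hI hx
  obtain ⟨u, hu⟩ : ∃ u : ℕ → ℂ, ∀ k, u k = h k * x ^ k := ⟨_, fun _ => rfl⟩
  obtain ⟨v, hv⟩ : ∃ v : ℕ → ℂ, ∀ k, v k = q k * x ^ k := ⟨_, fun _ => rfl⟩
  obtain ⟨S1, hS1⟩ : ∃ S1 : ℝ, S1 = ∑ k ∈ Finset.Icc 1 m, ‖u k‖ := ⟨_, rfl⟩
  obtain ⟨S2, hS2⟩ : ∃ S2 : ℝ, S2 = ∑ k ∈ Finset.Icc 1 m, ‖u k‖ ^ 2 := ⟨_, rfl⟩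
  have hS10 : 0 ≤ S1 := by
    rw [hS1]
    exact Finset.sum_nonneg fun k _ => norm_nonneg _
  have hS20 : 0 ≤ S2 := by
    rw [hS2]
    exact Finset.sum_nonneg fun k _ => by positivity
  have hu1 : ∀ k, 1 ≤ k → k ≤ m → ‖u k‖ ≤ 1 := fun k h1 h2 => by
    rw [hu]
    exact hx k h1 h2
  have huS : ∀ k, 1 ≤ k → k ≤ m → ‖u k‖ ≤ S1 := fun k h1 h2 => by
    rw [hS1]
    exact Finset.single_le_sum (f := fun k => ‖u k‖) (fun i _ => norm_nonneg _)
      (Finset.mem_Icc.2 ⟨h1, h2⟩)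
  have hS12 : S1 ^ 2 ≤ m * S2 := by
    have h1 := sq_sum_le_card_mul_sum_sq (s := Finset.Icc 1 m) (f := fun k => ‖u k‖)
    rw [Nat.card_Icc, Nat.add_sub_cancel] at h1
    rw [hS1, hS2]
    exact h1
  have hS1m : S1 ≤ m := by
    rw [hS1]
    have h1 := Finset.sum_le_card_nsmul (Finset.Icc 1 m) (fun k => ‖u k‖) 1 (fun k hk => by
      obtain ⟨h2, h3⟩ := Finset.mem_Icc.1 hk
      exact hu1 k h2 h3)
    rw [Nat.card_Icc, Nat.add_sub_cancel, nsmul_eq_mul, mul_one] at h1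
    exact h1
  have hv0 : v 0 = 1 := by rw [hv, hI.q0, pow_zero, mul_one]
  have hu0 : u 0 = 1 := by rw [hu, hI.h0, pow_zero, mul_one]
  -- the recursion
  have hrec : ∀ n, v (n + 1) + u (n + 1) = -∑ j ∈ Finset.range n, v (j + 1) * u (n - j) := by
    intro n
    have h1 := hI.conv (n + 1) (by omega)
    have h2 : ∑ j ∈ Finset.range (n + 2), v j * u (n + 1 - j) = 0 := by
      have h3 : ∑ j ∈ Finset.range (n + 2), v j * u (n + 1 - j) =
          (∑ j ∈ Finset.range (n + 1 + 1), q j * h (n + 1 - j)) * x ^ (n + 1) := by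
        rw [Finset.sum_mul]
        refine Finset.sum_congr rfl fun j hj => ?_
        have hj' : j ≤ n + 1 := by
          have := Finset.mem_range.1 hj
          omega
        rw [hv, hu]
        have h4 : x ^ (n + 1) = x ^ j * x ^ (n + 1 - j) := by
          rw [← pow_add]
          congr 1
          omega
        rw [h4]
        ring
      rw [h3, h1, zero_mul]
    rw [Finset.sum_range_succ, Finset.sum_range_succ', Nat.sub_self, hu0, mul_one,
      Nat.sub_zero, hv0, one_mul] at h2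
    have h5 : ∑ j ∈ Finset.range n, v (j + 1) * u (n + 1 - (j + 1)) =
        ∑ j ∈ Finset.range n, v (j + 1) * u (n - j) := by
      refine Finset.sum_congr rfl fun j _ => ?_
      rw [Nat.add_sub_add_right]
    rw [h5] at h2
    linear_combination h2
  have hgeo : ∀ n : ℕ, ∑ j ∈ Finset.range n, (2 : ℝ) ^ (j + 1) = 2 ^ (n + 1) - 2 := by
    intro n
    induction n with
    | zero => norm_num
    | succ n ih =>
      rw [Finset.sum_range_succ, ih]
      ring
  have hvb : ∀ n, n < m → ‖v (n + 1)‖ ≤ 2 ^ (n + 1) * S1 ∧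
      ‖v (n + 1) + u (n + 1)‖ ≤ 2 ^ (n + 1) * S1 ^ 2 := by
    intro n
    induction n using Nat.strong_induction_on with
    | _ n ih =>
      intro hn
      have h1 : ‖v (n + 1) + u (n + 1)‖ ≤ ∑ j ∈ Finset.range n, ‖v (j + 1)‖ * ‖u (n - j)‖ := by
        rw [hrec, norm_neg]
        refine (norm_sum_le _ _).trans (le_of_eq ?_)
        exact Finset.sum_congr rfl fun j _ => norm_mul _ _
      have h2 : ∑ j ∈ Finset.range n, ‖v (j + 1)‖ * ‖u (n - j)‖ ≤
          ∑ j ∈ Finset.range n, 2 ^ (j + 1) * S1 ^ 2 := by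
        refine Finset.sum_le_sum fun j hj => ?_
        have hj' := Finset.mem_range.1 hj
        have h3 := (ih j hj' (by omega)).1
        have h4 := huS (n - j) (by omega) (by omega)
        calc ‖v (j + 1)‖ * ‖u (n - j)‖ ≤ (2 ^ (j + 1) * S1) * S1 :=
              mul_le_mul h3 h4 (norm_nonneg _) (by positivity)
          _ = 2 ^ (j + 1) * S1 ^ 2 := by ring
      have h2' : ∑ j ∈ Finset.range n, ‖v (j + 1)‖ * ‖u (n - j)‖ ≤
          ∑ j ∈ Finset.range n, 2 ^ (j + 1) * S1 := by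
        refine Finset.sum_le_sum fun j hj => ?_
        have hj' := Finset.mem_range.1 hj
        have h3 := (ih j hj' (by omega)).1
        have h4 := hu1 (n - j) (by omega) (by omega)
        calc ‖v (j + 1)‖ * ‖u (n - j)‖ ≤ (2 ^ (j + 1) * S1) * 1 :=
              mul_le_mul h3 h4 (norm_nonneg _) (by positivity)
          _ = 2 ^ (j + 1) * S1 := by ring
      rw [← Finset.sum_mul, hgeo] at h2 h2'
      constructor
      · have h5 : ‖v (n + 1)‖ ≤ ‖v (n + 1) + u (n + 1)‖ + ‖u (n + 1)‖ := by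
          have h6 : v (n + 1) = (v (n + 1) + u (n + 1)) - u (n + 1) := by ring
          calc ‖v (n + 1)‖ = ‖(v (n + 1) + u (n + 1)) - u (n + 1)‖ := by rw [← h6]
            _ ≤ _ := norm_sub_le _ _
        have h7 := huS (n + 1) (by omega) (by omega)
        have h8 : ((2 : ℝ) ^ (n + 1) - 2) * S1 = 2 ^ (n + 1) * S1 - 2 * S1 := by ring
        rw [h8] at h2'
        linarith
      · have h8 : ((2 : ℝ) ^ (n + 1) - 2) * S1 ^ 2 = 2 ^ (n + 1) * S1 ^ 2 - 2 * S1 ^ 2 := by ring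
        rw [h8] at h2
        have : 0 ≤ S1 ^ 2 := by positivity
        linarith
  -- the sum
  obtain ⟨w, hw⟩ : ∃ w : ℂ, w = ∑ k ∈ Finset.Icc 1 m, u k := ⟨_, rfl⟩
  have hwn : ‖w‖ ≤ S1 := by
    rw [hw, hS1]
    exact norm_sum_le _ _
  have hqv : qv m q x = (1 - w) + ∑ j ∈ Finset.range m, (v (j + 1) + u (j + 1)) := by
    unfold qv
    have h1 : ∑ j ∈ Finset.range (m + 1), q j * x ^ j = ∑ j ∈ Finset.range (m + 1), v j :=
      Finset.sum_congr rfl fun j _ => (hv j).symm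
    rw [h1, Finset.sum_range_succ', hv0, Finset.sum_add_distrib, hw, sum_Icc_one]
    ring
  have hr : ‖∑ j ∈ Finset.range m, (v (j + 1) + u (j + 1))‖ ≤ m * 2 ^ (m + 1) * m * S2 := by
    refine (norm_sum_le _ _).trans ?_
    have h1 : ∑ j ∈ Finset.range m, ‖v (j + 1) + u (j + 1)‖ ≤
        ∑ _j ∈ Finset.range m, 2 ^ (m + 1) * S1 ^ 2 := by
      refine Finset.sum_le_sum fun j hj => ?_
      have hj' := Finset.mem_range.1 hj
      refine (hvb j hj').2.trans ?_
      refine mul_le_mul_of_nonneg_right ?_ (by positivity)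
      exact pow_le_pow_right₀ (by norm_num) (by omega)
    refine h1.trans ?_
    rw [Finset.sum_const, Finset.card_range, nsmul_eq_mul]
    have h2 : (m : ℝ) * (2 ^ (m + 1) * S1 ^ 2) ≤ m * (2 ^ (m + 1) * (m * S2)) := by
      gcongr
    refine h2.trans (le_of_eq ?_)
    ring
  have hK0 : 0 ≤ (m : ℝ) * 2 ^ (m + 1) * m * S2 := by positivity
  have hre : -(m : ℝ) ≤ -w.re + ‖w‖ ^ 2 / 2 := by
    have h1 : w.re ≤ ‖w‖ := Complex.re_le_norm w
    have h2 : 0 ≤ ‖w‖ ^ 2 / 2 := by positivity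
    linarith
  have h1 : ‖qv m q x‖ ≤ Real.exp (-w.re + ‖w‖ ^ 2 / 2) + m * 2 ^ (m + 1) * m * S2 := by
    rw [hqv]
    exact (norm_add_le _ _).trans (add_le_add (norm_one_sub_le w) hr)
  refine h1.trans ((exp_add_le hK0 hre).trans ?_)
  apply Real.exp_le_exp.2
  have hw2 : ‖w‖ ^ 2 ≤ m * S2 := by
    have : ‖w‖ ^ 2 ≤ S1 ^ 2 := by
      have := norm_nonneg w
      gcongr
    linarith
  have e1 : (∑ k ∈ Finset.Icc 1 m, h k * x ^ k) = w := by
    rw [hw]
    exact Finset.sum_congr rfl fun k _ => (hu k).symm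
  have e2 : ∑ k ∈ Finset.Icc 1 m, ‖h k * x ^ k‖ ^ 2 = S2 := by
    rw [hS2]
    exact Finset.sum_congr rfl fun k _ => by rw [hu]
  rw [e1, e2]
  have h3 : 0 ≤ (m : ℝ) * S2 := by positivity
  have h4 : ((m : ℝ) + m * 2 ^ (m + 1) * m * Real.exp m + 1) * S2 =
      m * S2 + m * 2 ^ (m + 1) * m * S2 * Real.exp m + S2 := by ring
  rw [h4]
  linarith

end Pool.Agent.H69.ZF
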